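import Pool.Agent.helper81.NW.Spec

set_option autoImplicit false

namespace Pool.Agent.helper81.NW

open Pool.Agent.helper84.NR
open scoped Classical
open Finset

theorem EXT (hIDX : IDX_stmt) (hWW0 : WW0_stmt) : EXT_stmt := by
  intro V F _ _ M x y A hne hA
  obtain ⟨hinj, hon, -, hed, -⟩ := hIDX V F M.toCyc A (st M x A)
  have hw0 : ww M x A 0 = x := (hWW0 V F M x A hA).1
  have hrep : ∀ B v, OnV M.toCyc B y → OnV M.toCyc A v → OnV M.toCyc B v →
      ∃ k, sh M y x A k ∧ ww M x A k = v := by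
    intro B v hB hAv hBv
    obtain ⟨a, ha, hav⟩ := hon v hAv
    have hav' : ww M x A a = v := hav
    refine ⟨a, ⟨?_, ha, B, hB, ?_⟩, hav'⟩
    · rcases Nat.eq_zero_or_pos a with h0 | h0
      · exfalso
        rw [h0, hw0] at hav'
        exact hne B ⟨hav' ▸ hBv, hB⟩
      · exact h0
    · rw [hav']
      exact hBv
  by_cases hex : ∃ k, sh M y x A k
  · obtain ⟨lo, hlo, hlo'⟩ : ∃ lo, sh M y x A lo ∧ ∀ k, sh M y x A k → lo ≤ k :=
      ⟨Nat.find hex, Nat.find_spec hex, fun k hk => Nat.find_min' hex hk⟩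
    obtain ⟨hi, hhi, hhi'⟩ : ∃ hi, sh M y x A hi ∧ ∀ k, sh M y x A k → k ≤ hi :=
      ⟨Nat.findGreatest (fun k => sh M y x A k) (M.len A),
        Nat.findGreatest_spec (P := fun k => sh M y x A k) hlo.2.1.le hlo,
        fun k hk => Nat.le_findGreatest hk.2.1.le hk⟩
    have hfst : ext M y x A lo := Or.inl ⟨hlo, hlo'⟩
    have hlst : ext M y x A hi := Or.inr ⟨hhi, hhi'⟩
    obtain ⟨-, hlolen, B1, hB1y, hB1⟩ := id hlo
    obtain ⟨-, hhilen, B2, hB2y, hB2⟩ := id hhi
    by_cases h2 : 2 ≤ (univ.filter (fun B => OnV M.toCyc B y ∧ ∃ i, ext M y x A i ∧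
      OnV M.toCyc B (ww M x A i))).card
    · exact Or.inr h2
    · left
      have heq : B1 = B2 := by
        by_contra h12
        apply h2
        rw [← Finset.card_pair h12]
        apply Finset.card_le_card
        intro B hB
        rw [mem_insert, mem_singleton] at hB
        rw [mem_filter]
        rcases hB with rfl | rfl
        · exact ⟨mem_univ _, hB1y, lo, hfst, hB1⟩
        · exact ⟨mem_univ _, hB2y, hi, hlst, hB2⟩
      subst heq
      have hAB : A ≠ B1 := fun h => hne A ⟨hA, h ▸ hB1y⟩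
      apply Finset.card_le_card
      intro B' hB'
      rw [mem_filter] at hB' ⊢
      obtain ⟨-, hB'y, v, hAv, hB'v⟩ := hB'
      refine ⟨mem_univ _, hB'y, ?_⟩
      obtain ⟨k, hk, rfl⟩ := hrep B' v hB'y hAv hB'v
      have hle := hlo' k hk
      have hge := hhi' k hk
      have hcase : k = lo ∨ k = hi := by
        rcases Nat.lt_or_ge lo hi with hlt | hge'
        · have hne' : ww M x A lo ≠ ww M x A hi := fun h => by
            have := hinj lo hi hlolen hhilen h
            omega
          have hE := (M.poly A B1 hAB _ _ hne' ⟨_, rfl⟩ ⟨_, rfl⟩ hB1 hB2).1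
          rcases hed lo hi hlt hhilen hE with h | h
          · omega
          · have := hlo.1
            omega
        · omega
      rcases hcase with h | h
      · exact ⟨lo, hfst, h ▸ hB'v⟩
      · exact ⟨hi, hlst, h ▸ hB'v⟩
  · left
    have : (univ.filter (fun B => OnV M.toCyc B y ∧ ∃ v, OnV M.toCyc A v ∧ OnV M.toCyc B v)) = ∅ := by
      rw [Finset.filter_eq_empty_iff]
      rintro B - ⟨hB, v, hAv, hBv⟩
      obtain ⟨k, hk, -⟩ := hrep B v hB hAv hBv
      exact hex ⟨k, hk⟩
    rw [this, Finset.card_empty]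
    exact Nat.zero_le _

end Pool.Agent.helper81.NW
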